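import Pool.Agent.Helper58.SF.StB

/-!
# SF module WNL: levels satisfy the winding number interface
-/

set_option autoImplicit false

namespace Pool.Agent.Helper63.SF

open Set Topology Pool.Agent.Helper13.TR Pool.Agent.Helper58.SF
open Pool.Agent.Helper13.TW (IsArc Spl IsSCC dch Chn Splt GT CSy MP Val LR MCell StARB StARX StSCL
  StUAR StINF StLIN StAC1 StSDM)

/-- A path in a subset lifts to the subspace. -/
private theorem lift_joined {P : Type} [TopologicalSpace P] {S : Set P} {D : Set ↥S} {x y : ↥S}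
    (h : JoinedIn (S \ (Subtype.val '' D)) (x : P) (y : P)) : JoinedIn Dᶜ x y := by
  obtain ⟨γ, hγ⟩ := h
  refine ⟨⟨⟨fun s => ⟨γ s, (hγ s).1⟩, by fun_prop⟩, ?_, ?_⟩, ?_⟩
  · exact Subtype.ext γ.source
  · exact Subtype.ext γ.target
  · intro s hs
    exact (hγ s).2 ⟨_, hs, rfl⟩

/-- Two points of one level on one line are equal. -/
private theorem level_line {P : Type} [TopologicalSpace P] {r : P → ℝ} {R : ℝ → P → P}
    (hF : Flow P r R) {t : ℝ} {x y : P} (hx : r x = t) (hy : r y = t) (h : y ∈ Ln r R x) :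
    y = x := by
  have hRx : R t x = x := hF.Rid t x hx.le
  have hRy : R t y = y := hF.Rid t y hy.le
  rcases h with h | h
  · have h2 := h.2
    rw [hx, hRy] at h2
    exact h2
  · have h2 := h.2
    rw [hy, hRx] at h2
    exact h2.symm

/-- WNL. -/
theorem hWNL : StOMB → StEXW → StSMW → StCNB → StLPL → StARQ → StLCQ → StRAY → StLIN → StARB →
    StPSH → StMON → StFLW → StSDA → StCON → StWNL := by
  intro hOMB hEXW hSMW hCNB hLPL hARQ hLCQ hRAY hLIN hARB hPSH hMON _ hSDA _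
  intro P _ r R dg hG t ht0 ht1
  have := hG.met
  have hF : Flow P r R := hG.box.toFlow
  have hpc : IsPathConnected {y : P | r y = t} := hCNB.2 P r R dg hG t ht0 ht1
  have hScl : IsClosed {y : P | r y = t} := isClosed_eq hF.rc continuous_const
  refine ⟨hLPL P r R dg hG.toSB t ht0 ht1, isPathConnected_iff_pathConnectedSpace.1 hpc, ?_⟩
  intro V0 hV0 hb
  obtain ⟨-, hO2, hO3, hO4, -⟩ := hOMB P r R dg hG
  obtain ⟨hS1, hS2⟩ := hSMW P r R dg hG
  obtain ⟨hm1, -, -, hm4, -, -⟩ := hMON ↥{y : P | r y = t}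
  obtain ⟨hp1, -, hp3, -, hp5, hp6⟩ := hPSH ↥{y : P | r y = t} P P
    ⟨Subtype.val, continuous_subtype_val⟩ (ContinuousMap.id P)
  have hemb : IsClosedEmbedding (Subtype.val : ↥{y : P | r y = t} → P) :=
    hScl.isClosedEmbedding_subtypeVal
  have hcar : ∀ (T : Set ↥{y : P | r y = t}) (n : ℕ), ∀ z ∈ cin T n, ∀ x : P, r x = t →
      x ∉ Subtype.val '' T →
      push (⟨Subtype.val, continuous_subtype_val⟩ : C(↥{y : P | r y = t}, P)) n z ∈
        cin (Ln r R x)ᶜ n := by
    intro T n z hz x hx hxT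
    refine hp3 _ n z (hm1 T _ n ?_ hz)
    intro y hy hyL
    exact hxT ⟨y, hy, level_line hF hx y.2 hyL⟩
  have hbnd : ∀ z ∈ cin (Subtype.val ⁻¹' V0 : Set ↥{y : P | r y = t}) 1, bd 0 z = 0 →
      ∃ e : Ch P 2, bd 1 e =
        push (⟨Subtype.val, continuous_subtype_val⟩ : C(↥{y : P | r y = t}, P)) 1 z := by
    intro z hz hz0
    refine hb _ (hp3 _ 1 z (hm1 _ _ 1 ?_ hz)) ?_
    · intro y hy
      exact ⟨y.2, hy⟩
    · rw [hp1, hz0, map_zero]
  have hnotin : ∀ (T : Set ↥{y : P | r y = t}) (x : ↥{y : P | r y = t}), x ∉ T →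
      (x : P) ∉ Subtype.val '' T := by
    rintro T x hx ⟨y, hy, hyx⟩
    exact hx (Subtype.ext hyx ▸ hy)
  have hncS : ¬ CompactSpace ↥{y : P | r y = t} := fun h =>
    hG.nc t ht0 ht1 (isCompact_iff_compactSpace.2 h)
  refine
    { nc := hncS
      op := hV0.preimage continuous_subtype_val
      add := ?_
      loc := ?_
      cpt := ?_
      bnd := ?_
      sml := ?_
      one := ?_
      arn := ?_
      lco := hLCQ P r R dg hG.toSB t ht0 ht1 }
  · intro z hz z' hz' hz0 hz0' x hx hx'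
    obtain ⟨e, he⟩ := hbnd z hz hz0
    obtain ⟨e', he'⟩ := hbnd z' hz' hz0'
    have h1 : bd 1 e ∈ cin (Ln r R (x : P))ᶜ 1 := by
      rw [he]; exact hcar _ 1 z hx _ x.2 (hnotin _ _ fun h => h rfl)
    have h2 : bd 1 e' ∈ cin (Ln r R (x : P))ᶜ 1 := by
      rw [he']; exact hcar _ 1 z' hx' _ x.2 (hnotin _ _ fun h => h rfl)
    have h3 := (hO2 e e' x h1 h2).1
    rw [he, he', ← map_add] at h3
    exact h3
  · intro z hz hz0 O hO hzO x y hxy
    obtain ⟨e, he⟩ := hbnd z hz hz0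
    have h3 := hO3 e (Subtype.val '' O) ?_ x y ?_
    · rw [he] at h3
      exact h3
    · rintro _ ⟨w, hw, rfl⟩
      rw [he]
      exact hcar _ 1 z hzO _ w.2 (hnotin _ _ fun h => h hw)
    · exact hxy.map_continuousOn continuous_subtype_val.continuousOn
  · intro z hz hz0
    obtain ⟨e, he⟩ := hbnd z hz hz0
    obtain ⟨Q, hQ, hQt, hQz⟩ := hS2 t e ht0 ht1
    refine ⟨Subtype.val ⁻¹' Q, hemb.isCompact_preimage hQ, fun x hx => ?_⟩
    have h3 := hQz x x.2 hx
    rw [he] at h3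
    exact h3
  · intro e Q heQ _ x hx
    have h3 := hO4 (push ⟨Subtype.val, continuous_subtype_val⟩ 2 e) x
      (hcar Q 2 e heQ x x.2 (hnotin _ _ hx))
    rw [hp1] at h3
    exact h3
  · intro x U hU hx
    obtain ⟨U', hU', rfl⟩ := isOpen_induced_iff.1 hU
    obtain ⟨V', hV', hxV', hVU, hV⟩ := hS1 x U' hU' hx
    refine ⟨Subtype.val ⁻¹' V', hV'.preimage continuous_subtype_val, hxV', preimage_mono hVU, ?_⟩
    intro z hz hz0 y hy
    refine hV _ (hp3 _ 1 z (hm1 _ _ 1 inter_subset_left hz)) ?_ y ?_ hy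
    · rw [hp1, hz0, map_zero]
    · exact (y.2 : r y = t).trans (x.2 : r x = t).symm
  · intro a ha O hO haO
    obtain ⟨O', hO', rfl⟩ := isOpen_induced_iff.1 hO
    obtain ⟨e₁, he₁, he₂, he₃⟩ := hEXW P r R dg hG a (O' ∩ V0) (hO'.inter hV0) ⟨haO, ha⟩
    have hsub : {y : P | r y = r a} ∩ (O' ∩ V0) ⊆
        Subtype.val '' (Subtype.val ⁻¹' O' ∩ Subtype.val ⁻¹' V0 : Set ↥{y : P | r y = t}) := by
      rintro y ⟨hy, hyO, hyV⟩
      exact ⟨⟨y, (hy : r y = r a).trans (a.2 : r a = t)⟩, ⟨hyO, hyV⟩, rfl⟩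
    obtain ⟨c', hc', hc⟩ := hp5 hemb.isEmbedding _ 2 e₁ ((hMON P).1 _ _ 2 hsub he₁)
    refine ⟨bd 1 c', hm4 _ 1 c' hc', (hSDA _).1 0 c', ?_, ?_⟩
    · have h4 : push (⟨Subtype.val, continuous_subtype_val⟩ : C(↥{y : P | r y = t}, P)) 1
          (bd 1 c') ∈ cin {(a : P)}ᶜ 1 := by
        rw [← hp1, hc]; exact he₂
      refine hm1 _ _ 1 ?_ (hp6 hemb.injective _ 1 _ h4)
      intro y hy hya
      exact hy (congrArg Subtype.val (hya : y = a))
    · have h5 : wS r R dg {y : P | r y = t} (bd 1 c') a = 1 := by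
        have : wS r R dg {y : P | r y = t} (bd 1 c') a = Wd (Up r R) (Dn r R) dg
            (push ⟨Subtype.val, continuous_subtype_val⟩ 1 (bd 1 c')) (a : P) := rfl
        rw [this, ← hp1, hc]
        exact he₃
      rw [h5]
      exact one_ne_zero
  · intro D hD
    have hDc : IsCompact D := by
      rcases hD with ⟨p, q, h⟩ | ⟨p, rfl⟩
      · exact (hARB.1 _ D p q h).2.1
      · exact isCompact_singleton
    have hD'c : IsCompact (Subtype.val '' D : Set P) := hDc.image continuous_subtype_val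
    have hPP : PP (Subtype.val '' D : Set P) 2 := by
      rcases hD with ⟨p, q, h⟩ | ⟨p, rfl⟩
      · have harc : IsArc (Subtype.val '' D : Set P) (p : P) (q : P) :=
          hARB.2.2.2.2.2 _ _ D p q _ h continuous_subtype_val.continuousOn
            Subtype.val_injective.injOn
        obtain ⟨h', hinj⟩ := hLIN.2.2.2 P _ _ _ harc
        refine hRAY P hG.hm _ h' hD'c.isClosed hinj ?_ ?_
        · intro a b
          exact hD'c.inter_right (isClosed_Icc.preimage h'.continuous)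
        · obtain ⟨m, hm⟩ := (hD'c.image h'.continuous).bddBelow
          exact ⟨m, fun w hw => hm ⟨w, hw, rfl⟩⟩
      · rw [image_singleton]
        exact hG.hm.low _ 2 (by norm_num)
    refine isPathConnected_iff.2 ⟨?_, ?_⟩
    · by_contra hne
      rw [not_nonempty_iff_eq_empty, compl_empty_iff] at hne
      exact hncS ⟨hne ▸ hDc⟩
    · intro x hx y hy
      refine lift_joined (hARQ P r R dg hG.toSB t ht0 ht1 hpc _ hD'c.isClosed ?_ hPP x y x.2 y.2
        (hnotin _ _ hx) (hnotin _ _ hy))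
      rintro _ ⟨w, -, rfl⟩
      exact w.2

end Pool.Agent.Helper63.SF
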